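import Pool.Agent.Run7.h420.TM.Stm

/-!
# Project TM (helper420), pieces PHI and QPRES (helper704)
-/

set_option autoImplicit false
set_option linter.all false

namespace Pool.Agent.Run7.h420.TM

open MeasureTheory Filter Topology Set

open Classical in
theorem t_PHI : S_ERG → S_PHI := by
  intro hERG G W L _ _ _ _ _ _ ν w₁ w₂ η hmix hη hinv hpos
  haveI := hmix.prob
  set E : Set W := {x | ∃! k, 1 / 2 < η k x} with hE
  have hms : ∀ k, MeasurableSet {x : W | 1 / 2 < η k x} := fun k =>
    measurableSet_lt measurable_const (hη k)
  have hEeq : E = ⋃ k, ({x : W | 1 / 2 < η k x} ∩ ⋂ k', {x : W | 1 / 2 < η k' x → k' = k}) := by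
    ext x
    simp only [hE, ExistsUnique, mem_setOf_eq, mem_iUnion, mem_inter_iff, mem_iInter]
  have hEm : MeasurableSet E := by
    rw [hEeq]
    refine MeasurableSet.iUnion fun k => (hms k).inter (MeasurableSet.iInter fun k' => ?_)
    by_cases h : k' = k
    · have : {x : W | 1 / 2 < η k' x → k' = k} = univ := by
        ext x
        simp [h]
      rw [this]
      exact MeasurableSet.univ
    · have : {x : W | 1 / 2 < η k' x → k' = k} = {x : W | 1 / 2 < η k' x}ᶜ := by
        ext x
        simp [h]
      rw [this]
      exact (hms k').compl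
  have hEinv : ∀ g ∈ (univ : Set G), ∀ᵐ x ∂ν, (g • x ∈ E ↔ x ∈ E) := by
    intro g _
    filter_upwards [hinv g] with x hx
    constructor
    · rintro ⟨k, hk, hu⟩
      refine ⟨(w₁ g x)⁻¹ * k * w₂ g x, ?_, ?_⟩
      · show 1 / 2 < η _ x
        rw [← hx]
        have : w₁ g x * ((w₁ g x)⁻¹ * k * w₂ g x) * (w₂ g x)⁻¹ = k := by group
        rw [this]
        exact hk
      · intro k' hk'
        have h1 : 1 / 2 < η (w₁ g x * k' * (w₂ g x)⁻¹) (g • x) := by
          rw [hx]
          exact hk'
        have h2 := hu _ h1
        rw [← h2]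
        group
    · rintro ⟨k, hk, hu⟩
      refine ⟨w₁ g x * k * (w₂ g x)⁻¹, ?_, ?_⟩
      · show 1 / 2 < η _ (g • x)
        rw [hx]
        exact hk
      · intro k' hk'
        have h1 : 1 / 2 < η ((w₁ g x)⁻¹ * k' * w₂ g x) x := by
          rw [← hx]
          have : w₁ g x * ((w₁ g x)⁻¹ * k' * w₂ g x) * (w₂ g x)⁻¹ = k' := by group
          rw [this]
          exact hk'
        have h2 := hu _ h1
        rw [← h2]
        group
  have hE1 : ν E = 1 := by
    rcases hERG G W ν univ E hmix infinite_univ hEm hEinv with h | h
    · exfalso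
      apply hpos
      refine measure_mono_null ?_ h
      rintro x ⟨h1, h2⟩
      refine ⟨1, h1, fun k hk => ?_⟩
      by_contra hne
      have := h2 k hne
      have hk' : 1 / 2 < η k x := hk
      linarith
    · exact h
  have hEae : ∀ᵐ x ∂ν, x ∈ E := by
    rw [ae_iff]
    exact (prob_compl_eq_zero_iff hEm).2 hE1
  refine ⟨fun x => if h : x ∈ E then h.choose else 1, ?_, ?_⟩
  · intro l
    have : {x : W | (if h : x ∈ E then h.choose else 1) = l} =
        (E ∩ {x : W | 1 / 2 < η l x}) ∪ (Eᶜ ∩ {_x : W | (1 : L) = l}) := by
      ext x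
      by_cases h : x ∈ E
      · have hs := h.choose_spec
        simp only [mem_setOf_eq, dif_pos h, mem_union, mem_inter_iff, h, true_and, mem_compl_iff,
          not_true_eq_false, false_and, or_false]
        constructor
        · intro hh
          rw [← hh]
          exact hs.1
        · intro hh
          exact (hs.2 l hh).symm
      · rw [mem_setOf_eq, dif_neg h]
        simp only [mem_setOf_eq, mem_union, mem_inter_iff, h, false_and, mem_compl_iff,
          not_false_eq_true, true_and, false_or]
    rw [this]
    exact (hEm.inter (hms l)).union (hEm.compl.inter (MeasurableSet.const _))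
  · intro g
    have h2 := (hmix.pres g).quasiMeasurePreserving.ae hEae
    filter_upwards [hinv g, hEae, h2] with x hx hxE hgE
    have s1 := hxE.choose_spec
    have s2 := hgE.choose_spec
    rw [dif_pos hxE, dif_pos hgE]
    have h3 : 1 / 2 < η (w₁ g x * hxE.choose * (w₂ g x)⁻¹) (g • x) := by
      rw [hx]
      exact s1.1
    have h4 := s2.2 _ h3
    rw [← h4]
    group

theorem t_QPRES : S_PROBS → S_QPRES := by
  intro hP G _ _ t
  haveI := hP.1
  haveI := hP.2
  haveI hpX : IsProbabilityMeasure (muX G) := by
    show IsProbabilityMeasure (Measure.infinitePi (fun _ : G => (volume : Measure UnitAddCircle)))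
    infer_instance
  haveI hpY : IsProbabilityMeasure (muY G) := by
    show IsProbabilityMeasure (Measure.infinitePi
      (fun _ : G => (volume : Measure ℝ).restrict (Set.Ioc (0 : ℝ) 1)))
    infer_instance
  have key : ∀ c : G → UnitAddCircle, (muX G).map (fun x : XX G => (fun h => x h + c h : XX G)) =
      muX G := by
    intro c
    have h1 := Measure.infinitePi_map_pi (μ := fun _ : G => (volume : Measure UnitAddCircle))
      (f := fun h (z : UnitAddCircle) => z + c h) (fun h => measurable_add_const _)
    have h2 : ∀ h, (volume : Measure UnitAddCircle).map (fun z => z + c h) = volume := fun h =>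
      map_add_right_eq_self _ _
    simp only [h2] at h1
    exact h1
  have hmeas : Measurable (Function.uncurry fun (y : YY G) (x : XX G) =>
      (fun h => x h + ((t * y h : ℝ) : UnitAddCircle) : XX G)) := by
    refine measurable_pi_iff.2 fun h => ?_
    have e1 : Measurable fun p : YY G × XX G => p.2 h :=
      (measurable_pi_apply (X := fun _ : G => UnitAddCircle) h).comp measurable_snd
    have e2 : Measurable fun p : YY G × XX G => p.1 h :=
      (measurable_pi_apply (X := fun _ : G => ℝ) h).comp measurable_fst
    have e3 : Measurable fun r : ℝ => ((t * r : ℝ) : UnitAddCircle) :=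
      (AddCircle.continuous_mk' (1 : ℝ)).measurable.comp (measurable_const.mul measurable_id)
    exact e1.add (e3.comp e2)
  have h1 : MeasurePreserving (fun p : YY G × XX G => (id p.1,
      (fun h => p.2 h + ((t * p.1 h : ℝ) : UnitAddCircle) : XX G)))
      ((muY G).prod (muX G)) ((muY G).prod (muX G)) :=
    (MeasurePreserving.id (muY G)).skew_product hmeas (ae_of_all _ fun y => key _)
  have h2 : MeasurePreserving (Prod.snd : YY G × XX G → XX G) ((muY G).prod (muX G)) (muX G) :=
    measurePreserving_snd
  have h3 : MeasurePreserving (Prod.swap : XX G × YY G → YY G × XX G) ((muX G).prod (muY G))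
    ((muY G).prod (muX G)) := Measure.measurePreserving_swap
  exact h2.comp (h1.comp h3)

end Pool.Agent.Run7.h420.TM
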