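import Pool.Agent.Run7.h420.TM.Stm

/-!
# Project TM (helper420), piece SD (helper704)
-/

set_option autoImplicit false
set_option linter.all false

namespace Pool.Agent.Run7.h420.TM

open MeasureTheory Filter Topology Set

theorem t_SD : S_PROBS → S_QPRES → S_SD := by
  intro hP hQ G _ _ t₀ A hA
  haveI := hP.1
  haveI := hP.2
  haveI hpX : IsProbabilityMeasure (muX G) := by
    show IsProbabilityMeasure (Measure.infinitePi (fun _ : G => (volume : Measure UnitAddCircle)))
    infer_instance
  haveI hpY : IsProbabilityMeasure (muY G) := by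
    show IsProbabilityMeasure (Measure.infinitePi
      (fun _ : G => (volume : Measure ℝ).restrict (Set.Ioc (0 : ℝ) 1)))
    infer_instance
  haveI b1 : BorelSpace (XX G) := inferInstanceAs (BorelSpace (G → UnitAddCircle))
  haveI b2 : BorelSpace (YY G) := inferInstanceAs (BorelSpace (G → ℝ))
  haveI s1 : SecondCountableTopology (XX G) :=
    inferInstanceAs (SecondCountableTopology (G → UnitAddCircle))
  haveI s2 : SecondCountableTopology (YY G) := inferInstanceAs (SecondCountableTopology (G → ℝ))
  haveI p1 : PolishSpace (XX G) := inferInstanceAs (PolishSpace (G → UnitAddCircle))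
  haveI p2 : PolishSpace (YY G) := inferInstanceAs (PolishSpace (G → ℝ))
  -- joint continuity
  have hcont : Continuous fun q : ℝ × (XX G × YY G) => qt G q.1 q.2 := by
    refine continuous_pi (A := fun _ : G => UnitAddCircle) fun h => ?_
    have e1 : Continuous fun q : ℝ × (XX G × YY G) => q.2.1 h :=
      (continuous_apply (A := fun _ : G => UnitAddCircle) h).comp
        (continuous_fst.comp continuous_snd)
    have e2 : Continuous fun q : ℝ × (XX G × YY G) => q.2.2 h :=
      (continuous_apply (A := fun _ : G => ℝ) h).comp (continuous_snd.comp continuous_snd)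
    exact e1.add ((AddCircle.continuous_mk' (1 : ℝ)).comp (continuous_fst.mul e2))
  let F : C(ℝ × (XX G × YY G), XX G) := ⟨fun q => qt G q.1 q.2, hcont⟩
  have hT : Tendsto (fun t => F.curry t) (𝓝 t₀) (𝓝 (F.curry t₀)) :=
    (map_continuous F.curry).tendsto t₀
  have h1 := tendsto_measure_symmDiff_preimage_nhds_zero (μ := (muX G).prod (muY G))
    (ν := muX G) (s := A) hT (Eventually.of_forall fun t => hQ G t) (hQ G t₀)
    hA.nullMeasurableSet (measure_ne_top _ _)
  have h2 := (ENNReal.tendsto_toReal ENNReal.zero_ne_top).comp h1
  rw [ENNReal.toReal_zero] at h2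
  exact h2

end Pool.Agent.Run7.h420.TM
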